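import Pool.Agent.Helper83.SD.Final

/-!
MP_a1e37a_co. For every sufficiently large `t` and every `J` with `0.645 t ≤ J` there is a
spherical `t`-design on the 2-sphere with exactly `6 J^2 + 2` points; in particular one with
at most `(5/2) t^2` points.
-/

set_option autoImplicit false

open MeasureTheory

namespace Pool.Agent.Helper83.Kept.ExplicitConstant

/-- For all large `t` and every natural number `J` with `0.645 t ≤ J` there is a set of exactly
`6 J^2 + 2` unit vectors of `R^3` on which every polynomial of degree at most `t` averages to its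
mean over the sphere. -/
theorem result :
    ∃ T : ℕ, ∀ t : ℕ, T ≤ t → ∀ J : ℕ, (645 / 1000 : ℝ) * (t : ℝ) ≤ (J : ℝ) →
      ∃ X : Finset (EuclideanSpace ℝ (Fin 3)),
        X.Nonempty ∧
        (∀ x ∈ X, ‖x‖ = 1) ∧
        (∀ p : MvPolynomial (Fin 3) ℝ, p.totalDegree ≤ t →
          (X.card : ℝ)⁻¹ * ∑ x ∈ X, MvPolynomial.eval (fun i => x i) p =
            ⨍ y : Metric.sphere (0 : EuclideanSpace ℝ (Fin 3)) 1,
              MvPolynomial.eval (fun i => (y : EuclideanSpace ℝ (Fin 3)) i) p
              ∂((volume : Measure (EuclideanSpace ℝ (Fin 3))).toSphere)) ∧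
        X.card = 6 * J ^ 2 + 2 := by
  obtain ⟨T0, h⟩ := Pool.Agent.Helper83.SD.final
  refine ⟨T0, fun t ht J hJ => ?_⟩
  obtain ⟨X, hc, h1, h2⟩ := h t ht J (by norm_num at hJ ⊢; linarith)
  refine ⟨X, ?_, h1, h2, hc⟩
  rw [← Finset.card_pos, hc]
  positivity

end Pool.Agent.Helper83.Kept.ExplicitConstant
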